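import Pool.Agent.K3h34.Z.Main

/-!
# The axiom (SC) for the complex exponential function on spaces with all logarithms

Let `q_0, q_1, …` be a sequence of integers `≥ 2`, `K` the field of the approximable numbers and `R` the field of the
rationally approximable real numbers with respect to `q` (see `SchanuelOnSubspaces`; `tower h` is the `h`-fold iterate
of `n ↦ 2 ^ n`). Let `L` be the `ℚ`-space of ALL complex logarithms of nonzero algebraic numbers (with `2 π i`), and
`R L` the space generated by the products `y l`, `y` in `R`, `l` in `L`. All the numbers `exp u`, `u` in `R L`, are in `K`.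

**Theorem.** (1) `K ∩ R L = 0`. If `l_1, …, l_m` in `L` are linearly independent over `ℚ` then `x + y_1 l_1 + … + y_m l_m`,
`x` in `K`, `y_j` in `R`, is in `L` only if `x = 0` and all the `y_j` are rational.

(2) The axiom (SC) for `(ℂ, exp)` holds for all tuples of a `ℚ`-subspace `W ⊆ K + R L` with `W ∩ L = 0`. For example
for all `W = K + C`, where `C` is a complement of `L` in `R L` (or any subspace of `R L` with `C ∩ L = 0`);
this `W` contains `exp u` for all `u` in `R L`.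

(3) The axiom (SC) holds for all tuples of a `ℚ`-subspace `W ⊆ R L` such that `W ∩ L` has dimension at most `1`,
for instance for `W = R l` for every `l` in `L`.

(4) Let `z_1, …, z_n` in `K + R L` be linearly independent over `ℚ`, `F = ℚ(z, exp z)`, `E` the field generated
by the algebraic numbers and `R`, and `ρ` the dimension of the intersection of the span of the `z_i` with `L`. Then
`n + trdeg (F ∩ E) ≤ trdeg F + ρ`, and if the `z_i` are in `R L` and `n ≥ 1` then
`n + trdeg (F ∩ E) + 1 ≤ trdeg F + ρ`. So (SC) holds for this tuple if `ρ ≤ trdeg (F ∩ E)`, and `ρ ≤ trdeg (F ∩ E) + 1`.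

(5) For example, let `ξ_1, …, ξ_m` in `R` be algebraically independent, `ξ_0 = 1`, and let `l_1, …, l_r` in `L` be
linearly independent over `ℚ`, `r ≥ 1`. The transcendence degree of the field generated by the `(m + 1) r`
linearly independent numbers `ξ_i l_j` and `exp (ξ_i l_j)` is at least `m r + m + 1`. So (SC) holds for these
numbers if `r ≤ m + 1`.

In the known theorem `SchanuelOnSubspaces` the space `L` is replaced by the span of the logarithms of the primes.
The theorem on the exponential function is from `MP_9cd479_nt.LogarithmSpans` (library `Pool.Agent.K3h47.Rad`).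
-/

set_option autoImplicit false

namespace Pool.Agent.Results.MP_209724_lc.AllLogarithmSpaces

/-- The `h`-fold iterate of `n ↦ 2 ^ n`. -/
def tower : ℕ → ℕ → ℕ
  | 0, q => q
  | h + 1, q => 2 ^ tower h q

/-- `a` is a zero of a nonzero polynomial over `ℤ` of degree at most `N` whose coefficients have absolute
value at most `N`. -/
def Bounded (N : ℕ) (a : ℂ) : Prop :=
  ∃ P : Polynomial ℤ, P ≠ 0 ∧ P.natDegree ≤ N ∧ (∀ n, |P.coeff n| ≤ N) ∧ Polynomial.aeval a P = 0

/-- For some `h` and every `κ`, for all large `k` the number `z` has an algebraic approximation of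
complexity at most `tower h (q k)` and with an error of at most `1 / tower κ (q k)`. -/
def Approximable (q : ℕ → ℕ) (z : ℂ) : Prop :=
  ∃ h : ℕ, ∀ κ : ℕ, ∃ k₀ : ℕ, ∀ k ≥ k₀, ∃ a : ℂ, Bounded (tower h (q k)) a ∧
    ‖z - a‖ ≤ ((tower κ (q k) : ℕ) : ℝ)⁻¹

/-- For some `h` and every `κ`, for all large `k` the real number `x` has a rational approximation with a
denominator at most `tower h (q k)` and with an error of at most `1 / tower κ (q k)`. -/
def RationallyApproximable (q : ℕ → ℕ) (x : ℝ) : Prop :=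
  ∃ h : ℕ, ∀ κ : ℕ, ∃ k₀ : ℕ, ∀ k ≥ k₀, ∃ (u : ℤ) (v : ℕ), 1 ≤ v ∧ v ≤ tower h (q k) ∧
    |x - u / v| ≤ ((tower κ (q k) : ℕ) : ℝ)⁻¹

/-- the `ℚ`-space `L` of all the logarithms of nonzero algebraic numbers -/
noncomputable def L : Submodule ℚ ℂ := Submodule.span ℚ {l | IsAlgebraic ℚ (Complex.exp l)}

/-- the field `K` as a `ℚ`-space -/
noncomputable def K (q : ℕ → ℕ) : Submodule ℚ ℂ := Submodule.span ℚ {z | Approximable q z}

/-- the `ℚ`-space `R L` -/
noncomputable def RL (q : ℕ → ℕ) : Submodule ℚ ℂ :=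
  Submodule.span ℚ {z | ∃ (y : ℝ) (l : ℂ), RationallyApproximable q y ∧ l ∈ L ∧ z = y * l}

/-- the `ℚ`-space `R l` -/
noncomputable def line (q : ℕ → ℕ) (l : ℂ) : Submodule ℚ ℂ :=
  Submodule.span ℚ {z | ∃ y : ℝ, RationallyApproximable q y ∧ z = y * l}

/-- the field `E` generated by the algebraic numbers and the elements of `R` -/
noncomputable def E (q : ℕ → ℕ) : IntermediateField ℚ ℂ :=
  IntermediateField.adjoin ℚ
    ({z | IsAlgebraic ℚ z} ∪ {z | ∃ r : ℝ, RationallyApproximable q r ∧ (r : ℂ) = z})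

/-- the field generated by the numbers `z_i` and `exp z_i` -/
noncomputable def F {ι : Type} (z : ι → ℂ) : IntermediateField ℚ ℂ :=
  IntermediateField.adjoin ℚ (Set.range z ∪ Set.range fun i => Complex.exp (z i))

/-- the dimension of the span of the `z_i` -/
noncomputable def dim {ι : Type} (z : ι → ℂ) : ℕ := Module.finrank ℚ ↥(Submodule.span ℚ (Set.range z))

/-- the dimension of the intersection of the span of the `z_i` with `L` -/
noncomputable def rho {ι : Type} (z : ι → ℂ) : ℕ :=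
  Module.finrank ℚ ↥(Submodule.span ℚ (Set.range z) ⊓ L)

/-- the axiom (SC) for the tuples of `W` -/
def SC (W : Submodule ℚ ℂ) : Prop :=
  ∀ (n : ℕ) (z : Fin n → ℂ), (∀ i, z i ∈ W) → (dim z : Cardinal) ≤ Algebra.trdeg ℚ (F z)

open Pool.Agent.R347.LW Pool.Agent.K3h47.Rad in
theorem tower_eq : tower = tow := by
  funext h q
  induction h with
  | zero => rfl
  | succ h ih => rw [tower, tow, ih]

theorem approximable_eq : Approximable = Pool.Agent.R347.LW.Appr := by
  funext q z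
  unfold Approximable Pool.Agent.R347.LW.Appr
  rw [tower_eq]
  rfl

theorem rationallyApproximable_eq : RationallyApproximable = Pool.Agent.R347.LW.RAppr := by
  funext q x
  unfold RationallyApproximable Pool.Agent.R347.LW.RAppr
  rw [tower_eq]

theorem L_eq : L = Pool.Agent.K3h47.Rad.Logs :=
  le_antisymm (Submodule.span_le.2 fun _ hl => hl) fun _ hl => Submodule.subset_span hl

theorem K_eq {q : ℕ → ℕ} (hq : ∀ k, 2 ≤ q k) : K q = Pool.Agent.K3h34.Z.sp hq := by
  unfold K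
  rw [approximable_eq]
  exact le_antisymm (Submodule.span_le.2 fun _ hl => hl) fun _ hl => Submodule.subset_span hl

theorem RL_eq {q : ℕ → ℕ} (hq : ∀ k, 2 ≤ q k) : RL q = Pool.Agent.K3h34.Z.RL hq := by
  unfold RL
  rw [rationallyApproximable_eq, L_eq]
  apply le_antisymm
  · rw [Submodule.span_le]
    rintro _ ⟨y, l, hy, hl, rfl⟩
    exact ⟨1, fun _ => y, fun _ => l, fun _ => hy, fun _ => hl, by simp⟩
  · rintro _ ⟨m, y, l, hy, hl, rfl⟩
    exact Submodule.sum_mem _ fun j _ => Submodule.subset_span ⟨y j, l j, hy j, hl j, rfl⟩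

theorem line_eq {q : ℕ → ℕ} (hq : ∀ k, 2 ≤ q k) (l : ℂ) : line q l = Pool.Agent.K3h34.Z.line hq l := by
  unfold line
  rw [rationallyApproximable_eq]
  exact le_antisymm (Submodule.span_le.2 fun _ hl => hl) fun _ hl => Submodule.subset_span hl

theorem E_eq (q : ℕ → ℕ) : E q = Pool.Agent.K3h47.Rad.E q := by
  unfold E Pool.Agent.K3h47.Rad.E Pool.Agent.K3h47.Rad.S
  rw [rationallyApproximable_eq]

theorem sc_eq : SC = Pool.Agent.K3h34.Z.SC := rfl

/-- **Main result.** -/
theorem result (q : ℕ → ℕ) (hq : ∀ k, 2 ≤ q k) :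
    -- (1)
    (K q ⊓ RL q = ⊥ ∧ ∀ (m : ℕ) (l : Fin m → ℂ), (∀ j, l j ∈ L) → LinearIndependent ℚ l →
      ∀ (x : ℂ) (y : Fin m → ℝ), x ∈ K q → (∀ j, RationallyApproximable q (y j)) →
        (x + ∑ j, (y j : ℂ) * l j ∈ L ↔ x = 0 ∧ ∀ j, ∃ r : ℚ, y j = r)) ∧
    -- (2)
    ((∀ W : Submodule ℚ ℂ, W ≤ K q ⊔ RL q → W ⊓ L = ⊥ → SC W) ∧
      (∀ C : Submodule ℚ ℂ, C ≤ RL q → C ⊓ L = ⊥ → (K q ⊔ C) ⊓ L = ⊥ ∧ SC (K q ⊔ C)) ∧
      ∀ u ∈ RL q, Complex.exp u ∈ K q) ∧
    -- (3)
    ((∀ W : Submodule ℚ ℂ, W ≤ RL q → Module.rank ℚ ↥(W ⊓ L) ≤ 1 → SC W) ∧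
      ∀ l ∈ L, SC (line q l)) ∧
    -- (4)
    (∀ (n : ℕ) (z : Fin n → ℂ), LinearIndependent ℚ z →
      ((∀ i, z i ∈ K q ⊔ RL q) →
        (n : Cardinal) + Algebra.trdeg ℚ ↥(F z ⊓ E q) ≤ Algebra.trdeg ℚ (F z) + rho z) ∧
      (n ≠ 0 → (∀ i, z i ∈ RL q) →
        (n : Cardinal) + Algebra.trdeg ℚ ↥(F z ⊓ E q) + 1 ≤ Algebra.trdeg ℚ (F z) + rho z)) ∧
    -- (5)
    (∀ (m r : ℕ) (ξ : Fin m → ℝ) (l : Fin r → ℂ), 1 ≤ r →
      (∀ i, RationallyApproximable q (ξ i)) → AlgebraicIndependent ℚ ξ →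
      (∀ j, l j ∈ L) → LinearIndependent ℚ l →
      LinearIndependent ℚ (fun p : Fin (m + 1) × Fin r =>
        (((Fin.cons 1 ξ : Fin (m + 1) → ℝ) p.1 : ℝ) : ℂ) * l p.2) ∧
      ((m * r + m + 1 : ℕ) : Cardinal) ≤ Algebra.trdeg ℚ (F fun p : Fin (m + 1) × Fin r =>
        (((Fin.cons 1 ξ : Fin (m + 1) → ℝ) p.1 : ℝ) : ℂ) * l p.2)) := by
  unfold rho
  rw [E_eq q, K_eq hq, RL_eq hq, L_eq, sc_eq, rationallyApproximable_eq]
  refine ⟨⟨Pool.Agent.K3h34.Z.disj hq, fun m l hl hlin x y hx hy =>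
      Pool.Agent.K3h47.Rad.structA hq l hl hlin x hx y hy⟩,
    ⟨fun W hW hL => Pool.Agent.K3h34.Z.sc1 hq W hW hL,
      fun C hC hL => ⟨Pool.Agent.K3h34.Z.sup_inf hq C hC hL, Pool.Agent.K3h34.Z.sc4 hq C hC hL⟩,
      fun u hu => Pool.Agent.K3h47.Rad.exp_rl hq hu⟩,
    ⟨fun W hW hL => Pool.Agent.K3h34.Z.sc2 hq W hW hL, fun l hl => ?_⟩,
    fun n z hz => ⟨fun h => ?_, fun hn h => ?_⟩, fun m r ξ l hr hξ hind hl hlin => ⟨?_, ?_⟩⟩
  · rw [line_eq hq]
    exact Pool.Agent.K3h34.Z.sc3 hq hl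
  · exact Pool.Agent.K3h47.Rad.defect hq z (fun i => Pool.Agent.K3h34.Z.mem_V hq (h i)) hz
  · exact Pool.Agent.K3h47.Rad.defect_rl hq hn z h hz
  · exact Pool.Agent.K3h34.Z.ww_indep hq ξ l hξ hind hl hlin
  · exact Pool.Agent.K3h34.Z.family hq ξ l hξ hind hl hlin hr

end Pool.Agent.Results.MP_209724_lc.AllLogarithmSpaces
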