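import Pool.Agent.K3h10.EAC.Dense
import Pool.Agent.Y563.SE.Main

/-!
# Axiom (SEAC) (i) in the complex exponential field: points at infinity in imaginary directions

`G_n = ℂ^n × (ℂ^*)^n`; its elements are functions on `Fin n ⊕ Fin n` (`Sum.inl`: the coordinates
`x`, `Sum.inr`: the coordinates `y`).  Let `V ⊆ G_n` be given by `n` equations `F_i(x, y) = 0` and
an inequation `H(x, y) ≠ 0`.  Write `F_i = G_i(x) + T_i(x, y) + (terms of lower degree in x)` with
`G_i` homogeneous of degree `d_i + 1` without `y`, or `G_i = 0`, and `T_i` homogeneous of degree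
`d_i` in `x`.  (If all `G_i` are `0` this is the known case of a dominant projection to `ℂ^n`.  If
`F_i` is a polynomial in `x` alone for `i ≤ k` and in `y` alone for `i > k`, then `V` is a product
`S × W`.)

Let `v ≠ 0` be a real vector with `G_i(v) = 0` for all `i`, so that the closure of `V` can have
points at infinity over the imaginary direction `2 π i v`, a direction of periods of `exp`.  Let `y`
be in `(ℂ^*)^n` with the regularity condition: the matrix
`∂G_i/∂x_j (v) + y_j ∂T_i/∂y_j (v, y)` is invertible, and the leading form of `H` is not zero at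
`(v, y)`.

(1) The system at infinity: if `-(∑_j ∂G_i/∂x_j(v) (w_j - c_j) + T_i(v, y))_i` is in the closure of
the group `{(∑_j ∂G_i/∂x_j(v) 2 π i K_j)_i : K ∈ ℤ^n}`, where `e^{w_j} = c_{n+j} y_j`, then the
translate `c V` has exponential points `(z, e^z)` which converge to this point at infinity.
(2) If the group is dense (in the space of the coordinates with `G_i ≠ 0`) and `T_i(v, y) = 0` for
the `i` with `G_i = 0`, then this is so for all translates `c V`; in particular every translate of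
`V` contains infinitely many exponential points.
(3) In (2), if `V` is contained in an irreducible variety of dimension `n` over a countable field
`K`, then almost every translate `c V` has infinitely many exponential points of transcendence
degree `n` over `K(c)`, as required by (SEAC) (i).
(4) The group is dense if the coordinates of `v` are linearly independent over `ℚ` and the
differential at `v` of the system of the `G_i`, as a map from `ℝ^n` to the space of the coordinates
with `G_i ≠ 0`, is surjective (`v` is a regular real zero; the number of the `i` with `G_i ≠ 0` can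
be any number smaller than `n / 2`).

Proof.  Let `q` be a natural number with `q v` close to `ℤ^n`.  With `x = 2 π i (q v + K) + ξ` the
equations, divided by `q^{d_i}`, are a small perturbation of the system at infinity (an exponential
system which is linear in `ξ` up to the terms `T_i(v, e^ξ)`), and a regular zero of it persists.
-/

set_option autoImplicit false

open MvPolynomial MeasureTheory

namespace Pool.Agent.Results.MP_209724_lc.ImaginaryDirections

/-- the exponential point `(z, e^z)` -/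
noncomputable def ExpPoint {n : ℕ} (z : Fin n → ℂ) : Fin n ⊕ Fin n → ℂ :=
  Sum.elim z (fun i => Complex.exp (z i))

/-- the translate `c V` -/
def Translate {n : ℕ} (c : Fin n ⊕ Fin n → ℂ) (V : Set (Fin n ⊕ Fin n → ℂ)) :
    Set (Fin n ⊕ Fin n → ℂ) :=
  {p | ∃ u ∈ V, p = Sum.elim (fun i => u (Sum.inl i) + c (Sum.inl i))
    (fun i => c (Sum.inr i) * u (Sum.inr i))}

/-- the points of `G_n` with `F_1 = ... = F_n = 0` and `H ≠ 0` -/
def Zeros {n : ℕ} (F : Fin n → MvPolynomial (Fin n ⊕ Fin n) ℂ)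
    (H : MvPolynomial (Fin n ⊕ Fin n) ℂ) : Set (Fin n ⊕ Fin n → ℂ) :=
  {p | (∀ i, eval p (F i) = 0) ∧ eval p H ≠ 0 ∧ ∀ j : Fin n, p (Sum.inr j) ≠ 0}

/-- the component of `f` of degree `j` in the variables `x` -/
noncomputable def xPart {n : ℕ} (j : ℕ) (f : MvPolynomial (Fin n ⊕ Fin n) ℂ) :
    MvPolynomial (Fin n ⊕ Fin n) ℂ :=
  weightedHomogeneousComponent (Sum.elim (fun _ => 1) (fun _ => 0) : Fin n ⊕ Fin n → ℕ) j f

/-- the point `(v, y)`, where `v` is real -/
noncomputable def at' {n : ℕ} (v : Fin n → ℝ) (y : Fin n → ℂ) : Fin n ⊕ Fin n → ℂ :=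
  Sum.elim (fun j => (v j : ℂ)) y

/-- the matrix of the partial derivatives `∂G_i/∂x_j (v)` -/
noncomputable def grad {n : ℕ} (G : Fin n → MvPolynomial (Fin n) ℂ) (v : Fin n → ℝ) (i j : Fin n) :
    ℂ :=
  eval (fun l => (v l : ℂ)) (pderiv j (G i))

/-- the group of the vectors `∑_j ∂G_i/∂x_j(v) 2 π i K_j`, `K ∈ ℤ^n` -/
def Periods {n : ℕ} (G : Fin n → MvPolynomial (Fin n) ℂ) (v : Fin n → ℝ) : Set (Fin n → ℂ) :=
  Set.range fun (K : Fin n → ℤ) i => ∑ j, grad G v i j * (2 * Real.pi * Complex.I * (K j : ℂ))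

/-- `F_i = G_i(x) + T_i(x, y) + ...` with `G_i` homogeneous of degree `d_i + 1` (or zero) and `T_i`
homogeneous of degree `d_i` in `x`; `H` has degree at most `h` in `x`; `v ≠ 0` is a common real zero
of the `G_i` and `(v, y)` is regular. -/
structure Regular {n : ℕ} (F : Fin n → MvPolynomial (Fin n ⊕ Fin n) ℂ)
    (G : Fin n → MvPolynomial (Fin n) ℂ) (d : Fin n → ℕ) (H : MvPolynomial (Fin n ⊕ Fin n) ℂ)
    (h : ℕ) (v : Fin n → ℝ) (y : Fin n → ℂ) : Prop where
  degree : ∀ i j, d i + 1 < j → xPart j (F i) = 0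
  leading : ∀ i, xPart (d i + 1) (F i) = rename Sum.inl (G i)
  degreeH : ∀ j, h < j → xPart j H = 0
  v_ne : v ≠ 0
  zero : ∀ i, eval (fun l => (v l : ℂ)) (G i) = 0
  y_ne : ∀ j, y j ≠ 0
  det : (Matrix.of fun i j : Fin n => grad G v i j +
    y j * eval (at' v y) (pderiv (Sum.inr j) (xPart (d i) (F i)))).det ≠ 0
  leadingH : eval (at' v y) (xPart h H) ≠ 0

/-- `S` has exponential points `(z, e^z)` near infinity with `z` in the direction `2 π i v` and `e^z`
close to `e^w`: for every `η > 0` there is `K ∈ ℤ^n` such that for arbitrarily large `t` there are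
`N ∈ ℤ^n` with `|N - t v| < η` and `z` with `|z - (2 π i (N + K) + w)| < η`. -/
def ExpPointsNear {n : ℕ} (S : Set (Fin n ⊕ Fin n → ℂ)) (v : Fin n → ℝ) (w : Fin n → ℂ) : Prop :=
  ∀ η : ℝ, 0 < η → ∃ K : Fin n → ℤ, ∀ B : ℝ, ∃ t : ℝ, B ≤ t ∧ ∃ (N : Fin n → ℤ) (z : Fin n → ℂ),
    ExpPoint z ∈ S ∧ ∀ j, |(N j : ℝ) - t * v j| < η ∧
      ‖z j - (2 * Real.pi * Complex.I * ((N j : ℂ) + (K j : ℂ)) + w j)‖ < η

/-- `V` is the set of points of `G_n` on which the prime ideal `P` vanishes: an irreducible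
subvariety. -/
structure IsVariety {n : ℕ} (P : Ideal (MvPolynomial (Fin n ⊕ Fin n) ℂ))
    (V : Set (Fin n ⊕ Fin n → ℂ)) : Prop where
  prime : P.IsPrime
  points : V = {p | (∀ f ∈ P, eval p f = 0) ∧ ∀ j : Fin n, p (Sum.inr j) ≠ 0}

/-- the coordinates with index in `J` are algebraically independent on `V` -/
def Indep {n : ℕ} (V : Set (Fin n ⊕ Fin n → ℂ)) (J : Finset (Fin n ⊕ Fin n)) : Prop :=
  ∀ f : MvPolynomial (Fin n ⊕ Fin n) ℂ, f.vars ⊆ J → (∀ p ∈ V, eval p f = 0) → f = 0

/-- `dim V = d`: the largest number of algebraically independent coordinates is `d` -/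
def HasDim {n : ℕ} (V : Set (Fin n ⊕ Fin n → ℂ)) (d : ℕ) : Prop :=
  (∃ J, J.card = d ∧ Indep V J) ∧ ∀ J, J.card = d + 1 → ¬ Indep V J

/-- `tr.deg_{K(c)} K(c)(z, e^z)` -/
noncomputable def trdegOver {n : ℕ} (K : Subfield ℂ) (c : Fin n ⊕ Fin n → ℂ) (z : Fin n → ℂ) :
    Cardinal :=
  Algebra.trdeg (IntermediateField.adjoin K (Set.range c))
    (IntermediateField.adjoin (IntermediateField.adjoin K (Set.range c)) (Set.range (ExpPoint z)))

/-- from exponential points near infinity to infinitely many exponential points -/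
theorem infinite {n : ℕ} {S : Set (Fin n ⊕ Fin n → ℂ)} {v : Fin n → ℝ} {w : Fin n → ℂ}
    (hv : v ≠ 0) (h : ExpPointsNear S v w) : {z : Fin n → ℂ | ExpPoint z ∈ S}.Infinite := by
  obtain ⟨j, hj⟩ := Function.ne_iff.1 hv
  simp only [Pi.zero_apply] at hj
  obtain ⟨K, hK⟩ := h 1 one_pos
  intro hfin
  -- the `j`-th coordinates are bounded
  obtain ⟨C, hC⟩ := (hfin.image fun z => ‖z j‖).bddAbove
  have hC' : ∀ z, ExpPoint z ∈ S → ‖z j‖ ≤ C := fun z hz => hC ⟨z, hz, rfl⟩
  set M : ℝ := C + 1 + ‖w j‖ + 2 * Real.pi * ‖(K j : ℂ)‖ + 2 * Real.pi with hM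
  obtain ⟨t, ht, N, z, hz, hz2⟩ := hK (max 0 ((M + 1) / (2 * Real.pi * |v j|)))
  have h1 := hC' z hz
  obtain ⟨h2, h3⟩ := hz2 j
  have hpi := Real.pi_pos
  have hvj : 0 < |v j| := abs_pos.2 hj
  have ht0 : 0 ≤ t := (le_max_left _ _).trans ht
  have ht1 : (M + 1) / (2 * Real.pi * |v j|) ≤ t := (le_max_right _ _).trans ht
  have h4 : M + 1 ≤ t * (2 * Real.pi * |v j|) := (div_le_iff₀ (by positivity)).1 ht1
  have h5 : t * |v j| ≤ |(N j : ℝ)| + 1 := by
    have : |t * v j| ≤ |(N j : ℝ)| + |(N j : ℝ) - t * v j| := by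
      have := abs_sub_abs_le_abs_sub (t * v j) (N j : ℝ)
      rw [abs_sub_comm (t * v j) (N j : ℝ)] at this
      linarith
    rw [abs_mul, abs_of_nonneg ht0] at this
    linarith
  have h6 : ‖(2 * Real.pi * Complex.I * (N j : ℂ) : ℂ)‖ = 2 * Real.pi * |(N j : ℝ)| := by
    rw [norm_mul, norm_mul, norm_mul, Complex.norm_I, mul_one]
    simp [abs_of_pos hpi]
  have h7 : ‖(2 * Real.pi * Complex.I * (K j : ℂ) : ℂ)‖ = 2 * Real.pi * ‖(K j : ℂ)‖ := by
    rw [norm_mul, norm_mul, norm_mul, Complex.norm_I, mul_one]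
    simp [abs_of_pos hpi]
  have h8 : (2 * Real.pi * Complex.I * (N j : ℂ) : ℂ) =
      z j - (z j - (2 * Real.pi * Complex.I * ((N j : ℂ) + (K j : ℂ)) + w j)) -
        2 * Real.pi * Complex.I * (K j : ℂ) - w j := by ring
  have h9 : 2 * Real.pi * |(N j : ℝ)| ≤ C + 1 + 2 * Real.pi * ‖(K j : ℂ)‖ + ‖w j‖ := by
    rw [← h6, h8]
    refine (norm_sub_le _ _).trans (add_le_add ?_ le_rfl)
    refine (norm_sub_le _ _).trans (add_le_add ?_ h7.le)
    refine (norm_sub_le _ _).trans (add_le_add h1 h3.le)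
  nlinarith

/-- the first part -/
theorem near {n : ℕ} {F : Fin n → MvPolynomial (Fin n ⊕ Fin n) ℂ}
    {G : Fin n → MvPolynomial (Fin n) ℂ} {d : Fin n → ℕ} {H : MvPolynomial (Fin n ⊕ Fin n) ℂ}
    {h : ℕ} {v : Fin n → ℝ} {y : Fin n → ℂ} (hreg : Regular F G d H h v y)
    (c : Fin n ⊕ Fin n → ℂ) (w : Fin n → ℂ) (hw : ∀ j, Complex.exp (w j) = c (Sum.inr j) * y j)
    (hcl : (fun i => -((∑ j, grad G v i j * (w j - c (Sum.inl j))) +
      eval (at' v y) (xPart (d i) (F i)))) ∈ closure (Periods G v)) :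
    ExpPointsNear (Translate c (Zeros F H)) v w := by
  intro η hη
  have hc : ∀ j, c (Sum.inr j) ≠ 0 := by
    intro j h0
    have := hw j
    rw [h0, zero_mul] at this
    exact Complex.exp_ne_zero _ this
  have hb : ∀ j, Complex.exp (Complex.log (c (Sum.inr j))) = c (Sum.inr j) := fun j =>
    Complex.exp_log (hc j)
  set b : Fin n → ℂ := fun j => Complex.log (c (Sum.inr j)) with hbdef
  have hξ : (fun k => Complex.exp ((w - b) k)) = y := by
    funext j
    rw [Pi.sub_apply, Complex.exp_sub, hw j, hbdef]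
    simp only
    rw [hb j, mul_div_cancel_left₀ _ (hc j)]
  have hsub : ∀ j, (w - b) j - ((fun j => c (Sum.inl j) - b j) : Fin n → ℂ) j =
      w j - c (Sum.inl j) := by
    intro j
    simp only [Pi.sub_apply]
    ring
  have hξ' : ∀ j, Complex.exp ((w - b) j) = y j := fun j => congrFun hξ j
  obtain ⟨K, hK⟩ := Pool.Agent.K3h10.EAC.real_main F d G hreg.degree hreg.leading v hreg.zero
    (fun j => c (Sum.inl j) - b j) (w - b)
    (by
      simp only [hsub, hξ]
      exact hcl)
    (by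
      simp only [hξ']
      exact hreg.det)
    H h hreg.degreeH
    (by
      rw [hξ]
      exact hreg.leadingH)
    η hη
  refine ⟨K, fun B => ?_⟩
  obtain ⟨m, hm⟩ := exists_nat_ge B
  obtain ⟨t, ht, N, hN, z, hz1, hz2, hz3⟩ := hK m
  refine ⟨t, hm.trans (by exact_mod_cast ht), N, fun j => z j + c (Sum.inl j), ?_, fun j => ⟨hN j, ?_⟩⟩
  · refine ⟨Sum.elim z (fun k => Complex.exp (z k + (c (Sum.inl k) - b k))), ⟨hz2, hz3, fun j => ?_⟩,
      ?_⟩
    · exact Complex.exp_ne_zero _
    · unfold ExpPoint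
      congr 1
      funext j
      simp only [Sum.elim_inr]
      have : z j + c (Sum.inl j) = b j + (z j + (c (Sum.inl j) - b j)) := by ring
      rw [this, Complex.exp_add]
      congr 1
      exact hb j
  · have e : z j + c (Sum.inl j) - (2 * Real.pi * Complex.I * ((N j : ℂ) + (K j : ℂ)) + w j) =
        z j - (2 * Real.pi * Complex.I * ((N j : ℂ) + (K j : ℂ)) + (w - b) j -
          (c (Sum.inl j) - b j)) := by
      simp only [Pi.sub_apply]
      ring
    rw [e]
    exact hz1 j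

theorem result {n : ℕ} (F : Fin n → MvPolynomial (Fin n ⊕ Fin n) ℂ)
    (G : Fin n → MvPolynomial (Fin n) ℂ) (d : Fin n → ℕ) (H : MvPolynomial (Fin n ⊕ Fin n) ℂ)
    (h : ℕ) (v : Fin n → ℝ) (y : Fin n → ℂ) (hreg : Regular F G d H h v y) :
    -- (1) points at infinity which satisfy the system at infinity
    (∀ (c : Fin n ⊕ Fin n → ℂ) (w : Fin n → ℂ), (∀ j, Complex.exp (w j) = c (Sum.inr j) * y j) →
      (fun i => -((∑ j, grad G v i j * (w j - c (Sum.inl j))) +
        eval (at' v y) (xPart (d i) (F i)))) ∈ closure (Periods G v) →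
      ExpPointsNear (Translate c (Zeros F H)) v w) ∧
    -- (2), (3) the dense case
    ((∀ s : Fin n → ℂ, (∀ i, G i = 0 → s i = 0) → s ∈ closure (Periods G v)) →
      (∀ i, G i = 0 → eval (at' v y) (xPart (d i) (F i)) = 0) →
      (∀ c : Fin n ⊕ Fin n → ℂ, (∀ j, c (Sum.inr j) ≠ 0) →
        (∀ w : Fin n → ℂ, (∀ j, Complex.exp (w j) = c (Sum.inr j) * y j) →
          ExpPointsNear (Translate c (Zeros F H)) v w) ∧
        {z : Fin n → ℂ | ExpPoint z ∈ Translate c (Zeros F H)}.Infinite) ∧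
      ∀ (K : Subfield ℂ) [Countable K] (P : Ideal (MvPolynomial (Fin n ⊕ Fin n) ℂ))
        (V : Set (Fin n ⊕ Fin n → ℂ)), IsVariety P V → HasDim V n →
        (∃ S : Set (MvPolynomial (Fin n ⊕ Fin n) K),
          P = Ideal.span (MvPolynomial.map (algebraMap K ℂ) '' S)) →
        Zeros F H ⊆ V →
        ∀ᵐ c : Fin n ⊕ Fin n → ℂ,
          {z : Fin n → ℂ | ExpPoint z ∈ Translate c (Zeros F H) ∧ trdegOver K c z = n}.Infinite) ∧
    -- (4) a criterion for the density
    ((∀ m : Fin n → ℤ, ∑ j, (m j : ℝ) * v j = 0 → m = 0) →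
      (∀ s : Fin n → ℂ, (∀ i, G i = 0 → s i = 0) →
        ∃ x : Fin n → ℝ, ∀ i, ∑ j, grad G v i j * (x j : ℂ) = s i) →
      ∀ s : Fin n → ℂ, (∀ i, G i = 0 → s i = 0) → s ∈ closure (Periods G v)) := by
  refine ⟨fun c w hw hcl => near hreg c w hw hcl, fun hD hT => ?_, fun hind hsurj s hs => ?_⟩
  swap
  · obtain ⟨x, hx⟩ := hsurj (fun i => s i / (2 * Real.pi * Complex.I)) fun i hi => by
      rw [hs i hi, zero_div]
    exact Pool.Agent.K3h10.EAC.dense_periods (grad G v) v
      (fun i => Pool.Agent.K3h10.EAC.euler (F i) (d i) (G i) (hreg.leading i)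
        (fun l => (v l : ℂ)) (hreg.zero i)) hind s x hx
  have key : ∀ c : Fin n ⊕ Fin n → ℂ, (∀ j, c (Sum.inr j) ≠ 0) →
        (∀ w : Fin n → ℂ, (∀ j, Complex.exp (w j) = c (Sum.inr j) * y j) →
          ExpPointsNear (Translate c (Zeros F H)) v w) ∧
        {z : Fin n → ℂ | ExpPoint z ∈ Translate c (Zeros F H)}.Infinite := by
    intro c hc
    have h1 : ∀ w : Fin n → ℂ, (∀ j, Complex.exp (w j) = c (Sum.inr j) * y j) →
          ExpPointsNear (Translate c (Zeros F H)) v w := by
      intro w hw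
      refine near hreg c w hw (hD _ fun i hi => ?_)
      have h2 : ∀ j, grad G v i j = 0 := by
        intro j
        simp only [grad, hi, map_zero]
      rw [hT i hi]
      simp [h2]
    refine ⟨h1, ?_⟩
    have h3 : ∀ j, c (Sum.inr j) * y j ≠ 0 := fun j => mul_ne_zero (hc j) (hreg.y_ne j)
    exact infinite hreg.v_ne (h1 (fun j => Complex.log (c (Sum.inr j) * y j))
      fun j => Complex.exp_log (h3 j))
  refine ⟨key, ?_⟩
  intro K hK P V hV hdim hS hsub
  obtain ⟨S, hS⟩ := hS
  have hne : V.Nonempty := by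
    have h1 := (key (Sum.elim 0 1) (by simp)).2
    obtain ⟨z, u, hu, -⟩ := h1.nonempty
    exact ⟨u, hsub hu⟩
  have hgen := Pool.Agent.Y563.SE.generic_pts P V hV.prime hV.points hne
    (by
      intro J hJ
      have h1 := hdim.2 J hJ
      unfold Indep at h1
      push Not at h1
      obtain ⟨f, h2, h3, h4⟩ := h1
      exact ⟨f, h4, h2, h3⟩) K S hS
  have hne2 : ∀ᵐ c : Fin n ⊕ Fin n → ℂ, ∀ j : Fin n, c (Sum.inr j) ≠ 0 := by
    rw [ae_all_iff]
    intro j
    exact Measure.ae_eval_ne (fun _ : Fin n ⊕ Fin n => (volume : Measure ℂ)) (Sum.inr j) 0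
  filter_upwards [hgen, hne2] with c h1 h2
  refine (key c h2).2.mono ?_
  rintro z hz
  refine ⟨hz, ?_⟩
  obtain ⟨u, hu, hu2⟩ := hz
  exact h1 z ⟨u, hsub hu, hu2⟩

end Pool.Agent.Results.MP_209724_lc.ImaginaryDirections
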