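import Pool.Agent.K3h22.E8.Ge8
import Pool.Agent.K3h64.E8.CORE8
import Pool.Agent.K3h77.E8.ALG8
import Pool.Agent.K3h60.E8.SUPP8
import Pool.Agent.K3h86.E8.TRD8
import Pool.Agent.K3h90.E8.COR8
import Pool.Agent.K3h99.E8.LIN8
import Pool.Agent.K3h22.EX.TL
import Pool.Agent.K3h69.ET.CUT1
import Pool.Agent.K3h37.ET.CUT2
import Pool.Agent.K3h90.ET.AEA
import Pool.Agent.K3h58.ET.FLAG
import Pool.Agent.K3h24.ET.CONE2
import Pool.Agent.K3h25.ET3.CONE1
import Pool.Agent.K3h35.ET.TRM
import Pool.Agent.K3h49.ET.VAL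
import Pool.Agent.K3h49.ET.SUPP
import Pool.Agent.K3h95.ET.ROOTEX
import Pool.Agent.K3h76.ET.GPQ
import Pool.Agent.K3h87.ET.SEP
import Pool.Agent.K3h22.ET.RESQ
import Pool.Agent.K3h68.ET.COORD2
import Pool.Agent.K3h68.ET.HYP2
import Pool.Agent.K3h68.ET.GENA
import Pool.Agent.K3h69.EX.Hyp
import Pool.Agent.Y563.SE.Main

/-!
# Axiom (SEAC) (i) in the complex exponential field: linear spaces in general position at infinity

`G_n = ℂ^n × (ℂ^*)^n`; its elements are functions on `Fin n ⊕ Fin n` (`Sum.inl`: the coordinates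
`x`, `Sum.inr`: the coordinates `y`).  The exponential points are the points `(z, e^z)`.

Let `L ⊆ ℂ^n` be a linear subspace of dimension `s ≥ 1` in general position (`GeneralPosition`):
`L` lies in no hyperplane `∑ c_i x_i = 0`, `c ≠ 0`,

* with real coefficients `c_i` which span a vector space over `ℚ` of dimension `≤ 2 s`, or
* with complex coefficients `c_i` which span a vector space over `ℚ` of dimension `≤ s`.

There is no condition on `n`; almost all `L` are in general position (D).

Let `V ⊆ G_n` be an irreducible variety of dimension at least `n`, and `X` the Zariski closure of its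
projection to `ℂ^n`. We suppose that

* (`OverTranslate`) `X = u + L` is an affine subspace parallel to `L`, or
* (`AtInfinity`) `dim X = s`, and `X` contains `L` at infinity: there are polynomials
  `F_1, ..., F_r`, `r = n - s`, and `g` such that `X` contains all points with
  `F_1 = ... = F_r = 0`, `g ≠ 0`; the leading forms of the `F_i` vanish on `L` and have independent
  gradients at some point of `L`; the leading form of `g` does not vanish on all of `L`.

(A) Every translate `c V` contains exponential points, and they are Zariski dense in `c V`.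

(B) If `dim V = n` and `V` is defined over a countable field `K` then on almost all translates `c V` the
exponential points are generic: they have transcendence degree `n = dim V` over `K(c)`, and they are
Zariski dense.  So (SEAC) (i), with the genericity, holds in `(ℂ, exp)` for almost all translates.

(C) Hyperplanes `∑ α_i x_i = 0` with `α_i` linearly independent over `ℚ` and not the multiples of
real numbers by one complex number are in general position.

(D) `L = A ℂ^s` is in general position if the real and imaginary parts of the entries of `A` are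
algebraically independent over `ℚ`; this is true for almost all matrices `A`.

The case `X = ℂ^n` of (A) is the theorem of Brownawell and Masser.  For products `(u + L) × W` see
Zilber and Gallinaro; here `X` and the fibres over `X` are more general.  This file replaces the
earlier hand-ins `LinearSpaces` (`X = u + L`, `dim V = n ≤ 2 s`) and `LinearSpacesAllDimensions`
(`X = u + L`). For other bases `X` see the hand-in `VarietiesOverGeneralBases`.

Proof of (A) for `dim V = n`: let `F` be the field of rational functions on `V`, of transcendence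
degree `r` over `ℂ(X)`, and `Q ⊆ ℝ^n` the space of the real parts of the points of `L`. Take finitely
many polynomial relations between the `y_i` over the coordinate ring of `X` (for all sets of `r`
coordinates `y_B` a relation between them, or, if they are independent, relations of the other `y_j`
and a resultant, a relation for a monomial in these `y_j` which separates the branches).  For each
rational subspace `Q'` of codimension `n - 2 s` there is a lexicographic valuation of `F` of rank
`r` whose first component has values `(v(y_i))_i` in `Q'`, not all `0`, since the `n - 2 s`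
monomials which define `Q'` generate a field of smaller transcendence degree.  With rational
subspaces which tend to `Q` and with the general position of `Q` there is a direction `w ∈ Q` of
rational rank `r` in which each relation has at least two dominant monomials. Let `w_B` be linearly
independent over `ℚ`, `w_j = ∑ σ_jb w_b`.  For `Re x_B ≈ R w_B`, `R → ∞`, each polynomial in
`y_b = e^{x_b}`, `b ∈ B`, over the coordinate ring is dominated by one monomial, and there is a branch
on which `log |y_j| = ∑ σ_jb Re x_b + O(log R)`.  Near `R ξ`, `ξ ∈ L`, `Re ξ ≈ w`, the variety `X` is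
the graph of a function of `l = x_j - ∑ σ_jb x_b`, which are coordinates of `L`, and polynomials which
do not vanish on `X` have polynomial size. The branch is continued to this region, and the equations
`x_j = log y_j + 2 π i N_j` are solved there by a fixed point argument near a purely imaginary centre.
If `dim V > n` then `V` contains a subvariety of dimension `n` with the same `X` which does not lie in
a given hypersurface.  (B): the starting theorem (A) of `CurvesInTheTorus`.

Parts of the proof are in the folders `EX` of `Pool.Agent.K3h74`, `K3h33`, `K3h60`, `K3h30`,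
`K3h76`, `K3h67`, `K3h91`, `K3h43`, `K3h87`, `K3h70`, `K3h40`, `K3h55`, `K3h73`, `K3h85`, `K3h10`,
`K3h69`, in the folders `ET` of `K3h58`, `K3h24`, `K3h25` (`ET3`), `K3h35`, `K3h49`, `K3h95`,
`K3h76`, `K3h87`, `K3h22`, `K3h68`, `K3h69`, `K3h37`, `K3h90`, in the folders `E8` of `K3h64`,
`K3h77`, `K3h60`, `K3h86`, `K3h90`, `K3h99`, and in the project `UG` of `K3h53` (codimension `r`,
`n ≤ 2 s`), with its parts by `K3h12`, `K3h17`, `K3h23`, `K3h33`, `K3h51`, `K3h55`, `K3h57`, `K3h58`,
`K3h68`, `K3h72`, `K3h90`, `K3h92`, `K3h93`, `K3h99`.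
-/

set_option autoImplicit false

open MvPolynomial MeasureTheory

namespace Pool.Agent.Results.MP_209724_lc.LinearSpacesAtInfinity

/-- `V` is the set of points of `G_n = ℂ^n × (ℂ^*)^n` on which the prime ideal `P` vanishes: an
irreducible subvariety. -/
structure IsVariety {n : ℕ} (P : Ideal (MvPolynomial (Fin n ⊕ Fin n) ℂ))
    (V : Set (Fin n ⊕ Fin n → ℂ)) : Prop where
  prime : P.IsPrime
  points : V = {p | (∀ f ∈ P, eval p f = 0) ∧ ∀ j : Fin n, p (Sum.inr j) ≠ 0}
  nonempty : V.Nonempty

/-- the coordinates with index in `J` are algebraically independent on `V` -/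
def Indep {n : ℕ} (V : Set (Fin n ⊕ Fin n → ℂ)) (J : Finset (Fin n ⊕ Fin n)) : Prop :=
  ∀ f : MvPolynomial (Fin n ⊕ Fin n) ℂ, f.vars ⊆ J → (∀ p ∈ V, eval p f = 0) → f = 0

/-- `dim V = d`: the largest number of algebraically independent coordinates is `d` -/
def HasDim {n : ℕ} (V : Set (Fin n ⊕ Fin n → ℂ)) (d : ℕ) : Prop :=
  (∃ J, J.card = d ∧ Indep V J) ∧ ∀ J, J.card = d + 1 → ¬ Indep V J

/-- `L` has dimension `s` and lies in no hyperplane `∑ c_i x_i = 0`, `c ≠ 0`, with real coefficients
which span a rational vector space of dimension `≤ 2 s` or with complex coefficients which span a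
rational vector space of dimension `≤ s` -/
structure GeneralPosition {n : ℕ} (s : ℕ) (L : Submodule ℂ (Fin n → ℂ)) : Prop where
  dim : Module.finrank ℂ L = s
  real : ∀ c : Fin n → ℝ, c ≠ 0 → Module.finrank ℚ (Submodule.span ℚ (Set.range c)) ≤ 2 * s →
    ∃ v ∈ L, ∑ i, (c i : ℂ) * v i ≠ 0
  complex : ∀ c : Fin n → ℂ, c ≠ 0 → Module.finrank ℚ (Submodule.span ℚ (Set.range c)) ≤ s →
    ∃ v ∈ L, ∑ i, c i * v i ≠ 0

/-- the Zariski closure of the projection of `V` to `ℂ^n` is an affine subspace `M` parallel to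
`L` -/
def OverTranslate {n : ℕ} (V : Set (Fin n ⊕ Fin n → ℂ)) (L : Submodule ℂ (Fin n → ℂ)) : Prop :=
  ∃ M : AffineSubspace ℂ (Fin n → ℂ), M.direction = L ∧
    (∀ p ∈ V, (fun i => p (Sum.inl i)) ∈ M) ∧
    ∀ f : MvPolynomial (Fin n) ℂ, (∀ p ∈ V, eval (fun i => p (Sum.inl i)) f = 0) →
      ∀ x ∈ M, eval x f = 0

/-- the coordinates `x_i`, `i ∈ K`, are algebraically independent on `V` -/
def XIndep {n : ℕ} (V : Set (Fin n ⊕ Fin n → ℂ)) (K : Finset (Fin n)) : Prop :=
  ∀ G : MvPolynomial (Fin n) ℂ, G.vars ⊆ K →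
    (∀ u ∈ V, eval (fun i => u (Sum.inl i)) G = 0) → G = 0

/-- the Zariski closure `X` of the projection of `V` to `ℂ^n` has dimension `s` -/
def BaseDim {n : ℕ} (V : Set (Fin n ⊕ Fin n → ℂ)) (s : ℕ) : Prop :=
  (∃ K, K.card = s ∧ XIndep V K) ∧ ∀ K, K.card = s + 1 → ¬ XIndep V K

/-- the point `x` lies in the Zariski closure `X` of the projection of `V` to `ℂ^n` -/
def OnBase {n : ℕ} (V : Set (Fin n ⊕ Fin n → ℂ)) (x : Fin n → ℂ) : Prop :=
  ∀ G : MvPolynomial (Fin n) ℂ, (∀ u ∈ V, eval (fun i => u (Sum.inl i)) G = 0) → eval x G = 0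

/-- the leading form of a polynomial -/
noncomputable def leading {n : ℕ} (q : MvPolynomial (Fin n) ℂ) : MvPolynomial (Fin n) ℂ :=
  homogeneousComponent q.totalDegree q

/-- `X`, the Zariski closure of the projection of `V` to `ℂ^n`, has dimension `s` and contains `L`
at infinity: it contains the points with `F_1 = ... = F_r = 0`, `g ≠ 0`, `r = n - s`; the leading
forms of the `F_i` vanish on `L` and have independent gradients at some point of `L`, and the
leading form of `g` does not vanish on all of `L` -/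
def AtInfinity {n : ℕ} (s : ℕ) (V : Set (Fin n ⊕ Fin n → ℂ)) (L : Submodule ℂ (Fin n → ℂ)) :
    Prop :=
  BaseDim V s ∧ ∃ (r : ℕ) (F : Fin r → MvPolynomial (Fin n) ℂ) (g : MvPolynomial (Fin n) ℂ),
    n = s + r ∧ (∀ x, (∀ i, eval x (F i) = 0) → eval x g ≠ 0 → OnBase V x) ∧
    (∀ i, ∀ z ∈ L, eval z (leading (F i)) = 0) ∧
    (∃ z ∈ L, LinearIndependent ℂ fun i j => eval z (pderiv j (leading (F i)))) ∧
    ∃ z ∈ L, eval z (leading g) ≠ 0

/-- the translate `c V` -/
def Translate {n : ℕ} (c : Fin n ⊕ Fin n → ℂ) (V : Set (Fin n ⊕ Fin n → ℂ)) :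
    Set (Fin n ⊕ Fin n → ℂ) :=
  {p | ∃ u ∈ V, p = Sum.elim (fun i => u (Sum.inl i) + c (Sum.inl i))
    (fun i => c (Sum.inr i) * u (Sum.inr i))}

/-- the exponential point `(z, e^z)` -/
noncomputable def ExpPoint {n : ℕ} (z : Fin n → ℂ) : Fin n ⊕ Fin n → ℂ :=
  Sum.elim z (fun i => Complex.exp (z i))

/-- `tr.deg_{K(c)} K(c)(z, e^z)` -/
noncomputable def trdegOver {n : ℕ} (K : Subfield ℂ) (c : Fin n ⊕ Fin n → ℂ) (z : Fin n → ℂ) :
    Cardinal :=
  Algebra.trdeg (IntermediateField.adjoin K (Set.range c))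
    (IntermediateField.adjoin (IntermediateField.adjoin K (Set.range c)) (Set.range (ExpPoint z)))

/-- **Exponential-algebraic closedness for varieties over bases which contain a linear space in
general position at infinity.** -/
theorem result :
    (∀ (n s : ℕ) (L : Submodule ℂ (Fin n → ℂ)), 1 ≤ s → GeneralPosition s L →
      ∀ (P : Ideal (MvPolynomial (Fin n ⊕ Fin n) ℂ)) (V : Set (Fin n ⊕ Fin n → ℂ)),
      IsVariety P V → ∀ m : ℕ, n ≤ m → HasDim V m → (OverTranslate V L ∨ AtInfinity s V L) →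
      -- (A) exponential points are Zariski dense in all translates
      (∀ c : Fin n ⊕ Fin n → ℂ, (∀ i, c (Sum.inr i) ≠ 0) →
        ∀ H : MvPolynomial (Fin n ⊕ Fin n) ℂ, (∃ p ∈ Translate c V, eval p H ≠ 0) →
        ∃ z : Fin n → ℂ, ExpPoint z ∈ Translate c V ∧ eval (ExpPoint z) H ≠ 0) ∧
      -- (B) on almost all translates they are also generic
      (m = n → ∀ (K : Subfield ℂ) [Countable K], (∃ S : Set (MvPolynomial (Fin n ⊕ Fin n) K),
          P = Ideal.span (MvPolynomial.map (algebraMap K ℂ) '' S)) →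
        ∀ᵐ c : Fin n ⊕ Fin n → ℂ, (∀ i, c (Sum.inr i) ≠ 0) ∧
          ∀ H : MvPolynomial (Fin n ⊕ Fin n) ℂ, (∃ p ∈ Translate c V, eval p H ≠ 0) →
          ∃ z : Fin n → ℂ, ExpPoint z ∈ Translate c V ∧ eval (ExpPoint z) H ≠ 0 ∧
            trdegOver K c z = n)) ∧
    -- (C) hyperplanes in general position
    (∀ (n : ℕ) (L : Submodule ℂ (Fin (n + 1) → ℂ)) (α : Fin (n + 1) → ℂ),
      (∀ x, x ∈ L ↔ ∑ i, α i * x i = 0) → LinearIndependent ℚ α →
      (∀ t : ℂ, t ≠ 0 → ∃ i, (t * α i).im ≠ 0) → GeneralPosition n L) ∧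
    -- (D) linear spaces with algebraically independent coefficients are in general position
    (∀ (n s : ℕ) (L : Submodule ℂ (Fin n → ℂ)) (A : Fin n → Fin s → ℂ), s ≤ n →
      (∀ x, x ∈ L ↔ ∃ z : Fin s → ℂ, ∀ i, x i = ∑ a, A i a * z a) →
      AlgebraicIndependent ℚ (Sum.elim (fun p : Fin n × Fin s => (A p.1 p.2).re)
        (fun p : Fin n × Fin s => (A p.1 p.2).im)) → GeneralPosition s L) ∧
    -- (D) almost all linear spaces are in general position
    (∀ n s : ℕ, s ≤ n → ∀ᵐ A : Fin n → Fin s → ℂ, ∀ L : Submodule ℂ (Fin n → ℂ),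
      (∀ x, x ∈ L ↔ ∃ z : Fin s → ℂ, ∀ i, x i = ∑ a, A i a * z a) →
      GeneralPosition s L) := by
  have hD : ∀ (n s : ℕ) (L : Submodule ℂ (Fin n → ℂ)) (A : Fin n → Fin s → ℂ), s ≤ n →
      (∀ x, x ∈ L ↔ ∃ z : Fin s → ℂ, ∀ i, x i = ∑ a, A i a * z a) →
      AlgebraicIndependent ℚ (Sum.elim (fun p : Fin n × Fin s => (A p.1 p.2).re)
        (fun p : Fin n × Fin s => (A p.1 p.2).im)) → GeneralPosition s L := by
    intro n s L A h1 h2 h3
    have h := Pool.Agent.K3h68.ET.t_GENA n s L.toAffineSubspace A 0 h1 (fun x => by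
      rw [Submodule.mem_toAffineSubspace, h2]
      simp) h3
    obtain ⟨h4, h5, h6⟩ := h
    rw [Submodule.toAffineSubspace_direction] at h4 h5 h6
    exact ⟨h4, h5, h6⟩
  refine ⟨?_, ?_, hD, ?_⟩
  · intro n s L hs hL P V hV m hm hd hVL
    have hJ : ∃ J : Finset (Fin n ⊕ Fin n), J.card = n ∧ Indep V J := by
      obtain ⟨J, hJ, hJi⟩ := hd.1
      obtain ⟨J', hJ', hJ'c⟩ := Finset.exists_subset_card_eq (hm.trans hJ.ge)
      exact ⟨J', hJ'c, fun f hf => hJi f (hf.trans hJ')⟩
    have hFLAG := Pool.Agent.K3h58.ET.t_FLAG Pool.Agent.K3h49.ET.t_VAL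
      Pool.Agent.K3h35.ET.t_TRM
    have hA : ∀ c : Fin n ⊕ Fin n → ℂ, (∀ i, c (Sum.inr i) ≠ 0) →
        ∀ H : MvPolynomial (Fin n ⊕ Fin n) ℂ, (∃ p ∈ Translate c V, eval p H ≠ 0) →
        ∃ z : Fin n → ℂ, ExpPoint z ∈ Translate c V ∧ eval (ExpPoint z) H ≠ 0 := by
      intro c hc H hH
      obtain ⟨p, ⟨u, hu, rfl⟩, hp⟩ := hH
      rcases hVL with ⟨M, hML, hVM, hVd⟩ | ⟨hX, r, F, g, hn, h1, h2, h3, h4⟩
      · obtain ⟨ι, ℓ, μ, h1, h2, h3, h4, h5⟩ := Pool.Agent.K3h68.ET.t_COORD2 n s V M
          ⟨by rw [hML]; exact hL.dim, by rw [hML]; exact hL.real, by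
            rw [hML]
            exact hL.complex⟩ hV.nonempty hVM hVd
        obtain ⟨z, hz, hz'⟩ := Pool.Agent.K3h22.EX.mainT3 Pool.Agent.K3h69.ET.t_CUT1
          Pool.Agent.K3h37.ET.t_CUT2 hFLAG Pool.Agent.K3h25.ET3.t_CONE1
          Pool.Agent.K3h24.ET.t_CONE2 Pool.Agent.K3h76.ET.t_GPQ
          Pool.Agent.K3h49.ET.t_SUPP Pool.Agent.K3h87.ET.t_SEP Pool.Agent.K3h22.ET.t_RESQ
          Pool.Agent.K3h95.ET.t_ROOTEX P V hV.prime hV.points hV.nonempty hJ
          hs ι h1 ℓ μ h2 h3 h4 h5 c hc H ⟨u, hu, hp⟩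
        exact ⟨z, hz, hz'⟩
      · obtain ⟨z, hz, hz'⟩ := Pool.Agent.K3h22.E8.geLin8 Pool.Agent.K3h64.E8.t_CORE8
          Pool.Agent.K3h77.E8.t_ALG8 Pool.Agent.K3h60.E8.t_SUPP8 Pool.Agent.K3h86.E8.t_TRD8
          Pool.Agent.K3h90.E8.t_COR8 Pool.Agent.K3h99.E8.t_LIN8 Pool.Agent.K3h87.ET.t_SEP
          hFLAG Pool.Agent.K3h25.ET3.t_CONE1 Pool.Agent.K3h24.ET.t_CONE2 hn hs P V hV.prime
          hV.points hV.nonempty hX.1 hX.2 hJ F g h1 L hL.dim hL.real hL.complex h2 h3 h4 c hc H
          ⟨u, hu, hp⟩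
        exact ⟨z, hz, hz'⟩
    refine ⟨hA, fun hmn K _ ⟨S, hS⟩ => ?_⟩
    have hd : HasDim V n := hmn ▸ hd
    have hgen := Pool.Agent.Y563.SE.generic_pts P V hV.prime hV.points hV.nonempty (by
      intro J hJ
      have h1 := hd.2 J hJ
      unfold Indep at h1
      push Not at h1
      obtain ⟨f, h2, h3, h4⟩ := h1
      exact ⟨f, h4, h2, h3⟩) K S hS
    have hne : ∀ᵐ c : Fin n ⊕ Fin n → ℂ, ∀ i : Fin n, c (Sum.inr i) ≠ 0 := by
      rw [ae_all_iff]
      intro i
      have h1 : (volume : Measure (Fin n ⊕ Fin n → ℂ)) {c | c (Sum.inr i) = 0} = 0 := by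
        have h2 : {c : Fin n ⊕ Fin n → ℂ | c (Sum.inr i) = 0} =
            (LinearMap.ker (LinearMap.proj (R := ℝ) (φ := fun _ : Fin n ⊕ Fin n => ℂ)
              (Sum.inr i)) : Set (Fin n ⊕ Fin n → ℂ)) := by
          ext c
          simp
        rw [h2]
        refine Measure.addHaar_submodule _ _ fun h => ?_
        have h3 : (fun _ => (1 : ℂ) : Fin n ⊕ Fin n → ℂ) ∈
            LinearMap.ker (LinearMap.proj (R := ℝ) (φ := fun _ : Fin n ⊕ Fin n => ℂ)
              (Sum.inr i)) := by
          rw [h]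
          trivial
        simp at h3
      rw [ae_iff]
      simpa using h1
    filter_upwards [hgen, hne] with c hc hc'
    refine ⟨hc', fun H hH => ?_⟩
    obtain ⟨z, hz, hz'⟩ := hA c hc' H hH
    exact ⟨z, hz, hz', hc z hz⟩
  · intro n L α h1 h2 h3
    have h := Pool.Agent.K3h68.ET.t_HYP2 (n + 1) n L.toAffineSubspace
      (Pool.Agent.K3h69.EX.t_HYP n L.toAffineSubspace α 0 (fun x => by
        rw [Submodule.mem_toAffineSubspace]
        exact h1 x) h2 h3)
    obtain ⟨h4, h5, h6⟩ := h
    rw [Submodule.toAffineSubspace_direction] at h4 h5 h6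
    exact ⟨h4, h5, h6⟩
  · intro n s hs
    filter_upwards [Pool.Agent.K3h90.ET.t_AEA n s] with A hA L h
    exact hD n s L A hs h hA

end Pool.Agent.Results.MP_209724_lc.LinearSpacesAtInfinity
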