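import Pool.Agent.K3h53.UG.Fin12

/-!
# Axiom (SEAC) (i) in the complex exponential field: varieties over bases of arbitrary codimension

`G_n = ℂ^n × (ℂ^*)^n`; its elements are functions on `Fin n ⊕ Fin n` (`Sum.inl`: the coordinates
`x`, `Sum.inr`: the coordinates `y`).  The exponential points are the points `(z, e^z)`.

Let `V ⊆ G_n` be irreducible of dimension at least `n`, `X` the Zariski closure of its projection to
`ℂ^n`, `s = dim X`, `r = n - s`. The exponential points are Zariski dense in `V` and in all its
translates in each of the following cases.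

* (A) `X` lies on the graph `x = p(z)` of a polynomial map in `s` of the coordinates; `s` of the
  polynomials `p_i` (`i = J 1, ..., J s`, the rows) have degree at least two and larger than the
  degrees of all other `p_i`, and the Jacobian determinant of the leading forms of the rows is not
  identically zero; no integral combination of the other `p_i` is constant on `V`; the coordinates
  `z` and the `y_i` which do not belong to rows are algebraically independent on `V`.
* (B) `X` contains the points with `F_1 = ... = F_r = 0`, `g ≠ 0`, and there are integers `w_i ≥ 1`, a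
  set `K` of `r` indices with `w_k = 1`, `y_k` (`k ∈ K`) algebraically independent over `ℂ(X)`, and a
  nonempty open set `U` in `ℝ^K`, such that for all rational `n × K` matrices `S` with `S_K = 1` a
  dense set of the `u ∈ U` are the real parts `Re z_K` of points `z ∈ ℂ^n` with: the weighted leading
  forms of the `F_i` vanish at `z`, that of `g` does not; `Re z_j = (S u)_j` if `w_j = 1` and
  `Re z_j = 0` if `w_j > 1`; the matrix of the derivatives at `z` of the leading forms of the `F_i` in
  the directions of the columns of `S`, put to zero in the rows with `w_j > 1`, is invertible.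
* (C) `X` is the graph `x_J = q(x_i, i ∉ J)`, `|J| = r`; the degrees of the polynomials `q_j` are odd
  multiples of a number `d ≥ 2` (for example: all the degrees are equal), their leading forms `q'_j`
  have real coefficients; for some set `K` of `r` indices outside of `J` the `y_k`, `k ∈ K`, are
  algebraically independent over `ℂ(X)`, and `q'` has a nonzero Jacobian determinant on each rational
  subspace of dimension `r` on which the `x_k`, `k ∈ K`, are coordinates.
* (D) `X` is the hypersurface `F = 0` (`F` generates the ideal of `X`), and for each nonzero rational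
  vector `u` there is a real vector `ξ` such that `η ↦ F'(ξ + η u)`, `F'` the leading form of `F`,
  has a simple zero which is not real (for example: `F'` is squarefree and has no nonzero real
  zeros).

The bases `X` which contain a linear space in general position at infinity are treated in the hand-in
`LinearSpacesAtInfinity`. In (A) `X` has dimension `≤ n / 2`, in (B), (C), (D) it has dimension
`≥ n / 2` in the main cases.

If `dim V > n`, then `V` is replaced by a subvariety of dimension `n` which has the same `X` and in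
which the same `n` coordinates are independent, and which does not lie in a given hypersurface.

Proof of (A). Let `δ ≥ 1` bound the degrees of the `p_i` which are not rows. There is a direction `ζ`
at which the leading forms of the rows have real part zero, not critical and not on a given
hypersurface.  For finitely many exponential polynomials `F` let `|F|_z` be the sum of the absolute
values of the exponentials in it.  Near each point `z₀` at bounded distance of `R ζ` there are good
balls of radius `√R / R^δ`, on which `log |F| = log |F|_{z₀} + O(log R)` for all these `F`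
(elimination of terms and a two constants argument on totally real subspaces). On good balls the
`log |y_j|` of the rows are within `O(log R)` of finitely many values given by Newton polygons, and
for good balls near `z₀`, `z₀'` the tuples of all branches agree up to
`O(log R + R^(δ-1) |z₀ - z₀'|)`, for which polynomials with roots `∏ y_j^{ν_j}` are used. An iteration
in `δ` steps gives a good ball and a branch with `Re Φ_j(z₀) = log |y_j| + O(log R)` for the
exponents `Φ_j` of the rows. The equations are then solved by the inverse function theorem.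

Proof of (B), which contains (C) and (D). Choose `ρ ∈ U` generic. In the cone of the `Y = e^y` with
`Re y ≈ R ρ` each polynomial in `Y` over the coordinate ring `ℂ[X]` is dominated by one monomial, so
on each branch `log |y_j| = ∑ S_{jk} Re y_k + O(log R)` with rational `S_{jk}` (Newton polygons), and
the set of the matrices `S` which occur does not depend on the point of `X` nor on the direction near
`ρ` (continuation, and polynomials with roots `∏ y_j^{ν_j}`). For such an `S` take a point `z` as in
(B) with `Re z_K` near `ρ`, not on finitely many hypersurfaces. By the implicit function theorem `X`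
is, near the points `(R^{w_j} z_j)`, the graph of a function `ψ` of `l = x - S x_K`, and polynomials
which do not vanish on `X` have there polynomial size (elimination). The branch with the exponents
`S` is continued, and the equations `l_j = log y_j - ∑ S_{jk} ψ_k + 2 π i N_j` are solved by a fixed
point argument (Borel-Caratheodory) near a purely imaginary centre.
-/

set_option autoImplicit false

open MvPolynomial

namespace Pool.Agent.Results.MP_209724_lc.VarietiesOverGeneralBases

/-- `V` is the set of points of `G_n = ℂ^n × (ℂ^*)^n` on which the prime ideal `P` vanishes: an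
irreducible subvariety. -/
structure IsVariety {n : ℕ} (P : Ideal (MvPolynomial (Fin n ⊕ Fin n) ℂ))
    (V : Set (Fin n ⊕ Fin n → ℂ)) : Prop where
  prime : P.IsPrime
  points : V = {p | (∀ f ∈ P, eval p f = 0) ∧ ∀ j : Fin n, p (Sum.inr j) ≠ 0}
  nonempty : V.Nonempty

/-- the coordinates with index in `K` are algebraically independent on `V` -/
def Indep {n : ℕ} (V : Set (Fin n ⊕ Fin n → ℂ)) (K : Finset (Fin n ⊕ Fin n)) : Prop :=
  ∀ f : MvPolynomial (Fin n ⊕ Fin n) ℂ, f.vars ⊆ K → (∀ p ∈ V, eval p f = 0) → f = 0

/-- `dim V ≥ d`: there are `d` coordinates which are algebraically independent on `V` -/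
def DimAtLeast {n : ℕ} (V : Set (Fin n ⊕ Fin n → ℂ)) (d : ℕ) : Prop :=
  ∃ K, K.card = d ∧ Indep V K

/-- the translate `c V` -/
def Translate {n : ℕ} (c : Fin n ⊕ Fin n → ℂ) (V : Set (Fin n ⊕ Fin n → ℂ)) :
    Set (Fin n ⊕ Fin n → ℂ) :=
  {p | ∃ u ∈ V, p = Sum.elim (fun i => u (Sum.inl i) + c (Sum.inl i))
    (fun i => c (Sum.inr i) * u (Sum.inr i))}

/-- the exponential point `(z, e^z)` -/
noncomputable def ExpPoint {n : ℕ} (z : Fin n → ℂ) : Fin n ⊕ Fin n → ℂ :=
  Sum.elim z (fun i => Complex.exp (z i))

/-- the leading form of a polynomial -/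
noncomputable def leading {s : ℕ} (q : MvPolynomial (Fin s) ℂ) : MvPolynomial (Fin s) ℂ :=
  homogeneousComponent q.totalDegree q

/-- the derivative in the direction `u` -/
noncomputable def D {s : ℕ} (u : Fin s → ℚ) (q : MvPolynomial (Fin s) ℂ) :
    MvPolynomial (Fin s) ℂ :=
  ∑ j, C ((u j : ℚ) : ℂ) * pderiv j q

/-- the indices which are not rows -/
def Others {n s : ℕ} (J : Fin s ↪ Fin n) : Finset (Fin n) :=
  Finset.univ.filter fun i => ∀ a, J a ≠ i

/-- (A) `V` lies over the graph of the polynomial map `p` in the coordinates `z_a = x_{ι a}`; the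
polynomials `p_{J a}` (the rows) have degree at least two and leading forms with nonzero Jacobian
determinant, the others have degrees smaller than the degree of each row, and no integral
combination of them is constant on `V`; the coordinates `z_a` and the `y_i` with `i` not in `J` are
algebraically independent on `V` -/
structure OverGraph {n s : ℕ} (V : Set (Fin n ⊕ Fin n → ℂ)) (ι J : Fin s ↪ Fin n)
    (p : Fin n → MvPolynomial (Fin s) ℂ) : Prop where
  graph : ∀ u ∈ V, ∀ i, u (Sum.inl i) = eval (fun a => u (Sum.inl (ι a))) (p i)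
  rows : ∀ a, 2 ≤ (p (J a)).totalDegree
  jacobian : (Matrix.of fun a b => pderiv b (leading (p (J a)))).det ≠ 0
  others : ∀ i ∈ Others J, ∀ a, (p i).totalDegree < (p (J a)).totalDegree
  free : ∀ m : Fin n → ℤ, m ≠ 0 → (∀ a, m (J a) = 0) → ∀ k : ℂ,
    ∃ u ∈ V, ∑ i, (m i : ℂ) * u (Sum.inl i) ≠ k
  indep : Indep V ((Finset.univ.image fun a => Sum.inl (ι a)) ∪ (Others J).image Sum.inr)

/-- the leading form of a polynomial for the weights `w` -/
noncomputable def weightedLeading {n : ℕ} (w : Fin n → ℕ) (q : MvPolynomial (Fin n) ℂ) :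
    MvPolynomial (Fin n) ℂ :=
  weightedHomogeneousComponent w (weightedTotalDegree w q) q

/-- the coordinates `x_i`, `i ∈ K`, are algebraically independent on `V` -/
def XIndep {n : ℕ} (V : Set (Fin n ⊕ Fin n → ℂ)) (K : Finset (Fin n)) : Prop :=
  ∀ G : MvPolynomial (Fin n) ℂ, G.vars ⊆ K →
    (∀ u ∈ V, eval (fun i => u (Sum.inl i)) G = 0) → G = 0

/-- the Zariski closure `X` of the projection of `V` to `ℂ^n` has dimension `s` -/
def BaseDim {n : ℕ} (V : Set (Fin n ⊕ Fin n → ℂ)) (s : ℕ) : Prop :=
  (∃ K, K.card = s ∧ XIndep V K) ∧ ∀ K, K.card = s + 1 → ¬ XIndep V K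

/-- the point `x` lies in the Zariski closure `X` of the projection of `V` to `ℂ^n` -/
def OnBase {n : ℕ} (V : Set (Fin n ⊕ Fin n → ℂ)) (x : Fin n → ℂ) : Prop :=
  ∀ G : MvPolynomial (Fin n) ℂ, (∀ u ∈ V, eval (fun i => u (Sum.inl i)) G = 0) → eval x G = 0

/-- the `y_{κ b}` are algebraically independent over the functions of `x` on `V` -/
def FibreIndep {n r : ℕ} (V : Set (Fin n ⊕ Fin n → ℂ)) (κ : Fin r ↪ Fin n) : Prop :=
  ∀ h : MvPolynomial (Fin r) (MvPolynomial (Fin n) ℂ),
    (∀ u ∈ V, eval (fun b => u (Sum.inr (κ b))) (map (eval fun i => u (Sum.inl i)) h) = 0) →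
    ∀ m, ∀ u ∈ V, eval (fun i => u (Sum.inl i)) (coeff m h) = 0

/-- (B) `X` contains the points with `F = 0`, `g ≠ 0`, and for the weights `w`, the set `κ` of indices
of weight one, for which the `y_{κ b}` are algebraically independent over `ℂ(X)`, and all rational
matrices `S` with `S_κ = 1`, a dense set of the `u` in the open set `U` are the real parts of
`z_κ` for points `z` as follows: the leading forms of `F`, but not of `g`, vanish at `z`;
`Re z_j = (S u)_j` if `w_j = 1`, `Re z_j = 0` if `w_j > 1`; the derivatives of the leading forms of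
the `F_i` in the directions of the columns of `S` (put to zero in the rows with `w_j > 1`) form an
invertible matrix -/
structure HasDirections {n r : ℕ} (V : Set (Fin n ⊕ Fin n → ℂ))
    (F : Fin r → MvPolynomial (Fin n) ℂ) (g : MvPolynomial (Fin n) ℂ) (w : Fin n → ℕ)
    (κ : Fin r ↪ Fin n) (U : Set (Fin r → ℝ)) : Prop where
  contains : ∀ x, (∀ i, eval x (F i) = 0) → eval x g ≠ 0 → OnBase V x
  weights : ∀ i, 1 ≤ w i
  weight_one : ∀ b, w (κ b) = 1
  fibre : FibreIndep V κ
  isOpen : IsOpen U
  nonempty : U.Nonempty
  directions : ∀ S : Fin n → Fin r → ℚ, (∀ b b', S (κ b) b' = if b = b' then 1 else 0) →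
    U ⊆ closure {u : Fin r → ℝ | ∃ z : Fin n → ℂ, (∀ i, eval z (weightedLeading w (F i)) = 0) ∧
      eval z (weightedLeading w g) ≠ 0 ∧
      (∀ j, (z j).re = if w j = 1 then ∑ b, (S j b : ℝ) * u b else 0) ∧
      (Matrix.of fun i b : Fin r => ∑ j, if w j = 1 then
        (S j b : ℂ) * eval z (pderiv j (weightedLeading w (F i))) else 0).det ≠ 0}

/-- (C) `X` contains the graph `x_{J i} = q_i` (and it is the graph if `dim X = n - r`), the
polynomials `q_i` do not contain the coordinates `x_{J i'}`, their degrees are odd multiples of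
`d ≥ 2`, and their leading forms have real coefficients; the `y_{κ b}`, `κ` disjoint from `J`, are
algebraically independent over `ℂ(X)`, and the leading forms have a nonzero Jacobian determinant on
each rational subspace of dimension `r` on which the `x_{κ b}` are coordinates (the columns of `S` are a
basis of it) -/
structure OverRealGraph {n r : ℕ} (V : Set (Fin n ⊕ Fin n → ℂ)) (J κ : Fin r ↪ Fin n)
    (q : Fin r → MvPolynomial (Fin n) ℂ) (d : ℕ) : Prop where
  contains : ∀ x, (∀ i, x (J i) = eval x (q i)) → OnBase V x
  vars : ∀ i i', J i' ∉ (q i).vars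
  two_le : 2 ≤ d
  degree : ∀ i, ∃ k, (q i).totalDegree = d * (2 * k + 1)
  real : ∀ i m, (coeff m (leading (q i))).im = 0
  disjoint : ∀ i b, J i ≠ κ b
  fibre : FibreIndep V κ
  jacobian : ∀ S : Fin n → Fin r → ℚ, (∀ b b', S (κ b) b' = if b = b' then 1 else 0) →
    ∃ t : Fin r → ℂ, (Matrix.of fun i b : Fin r =>
      eval (fun j => ∑ b', (S j b' : ℂ) * t b') (D (fun j => S j b) (leading (q i)))).det ≠ 0

/-- (D) the polynomials in `x` vanishing on `V` are the multiples of `F`, and for each nonzero
rational vector `u` the leading form of `F` has, on some real line with direction `u`, a simple zero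
with a parameter which is not real -/
structure OverHypersurface {n : ℕ} (V : Set (Fin n ⊕ Fin n → ℂ)) (F : MvPolynomial (Fin n) ℂ) :
    Prop where
  ideal : ∀ G : MvPolynomial (Fin n) ℂ, (∀ u ∈ V, eval (fun i => u (Sum.inl i)) G = 0) ↔ F ∣ G
  nonreal : ∀ u : Fin n → ℚ, u ≠ 0 → ∃ (ξ : Fin n → ℝ) (η : ℂ), η.im ≠ 0 ∧
    eval (fun i => (ξ i : ℂ) + η * (u i : ℂ)) (leading F) = 0 ∧
    eval (fun i => (ξ i : ℂ) + η * (u i : ℂ)) (D u (leading F)) ≠ 0

theorem dd_eq {s : ℕ} (u : Fin s → ℚ) (q : MvPolynomial (Fin s) ℂ) :
    Pool.Agent.K3h53.UG.dd (fun j => (((u j : ℚ) : ℝ) : ℂ)) q = D u q := by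
  unfold Pool.Agent.K3h53.UG.dd D
  refine Finset.sum_congr rfl fun j _ => ?_
  simp only [Complex.ofReal_ratCast]

/-- **Main result.** Let `V ⊆ G_n` be an irreducible variety of dimension at least `n` for which
(A), (B), (C) or (D) holds. Then the exponential points are Zariski dense in every translate
`c V`. -/
theorem result {n : ℕ} (P : Ideal (MvPolynomial (Fin n ⊕ Fin n) ℂ))
    (V : Set (Fin n ⊕ Fin n → ℂ)) (hV : IsVariety P V) (hdim : DimAtLeast V n)
    (h : (∃ (s : ℕ) (ι J : Fin s ↪ Fin n) (p : Fin n → MvPolynomial (Fin s) ℂ),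
        OverGraph V ι J p) ∨
      (∃ s r : ℕ, n = s + r ∧ BaseDim V s ∧ ∃ (F : Fin r → MvPolynomial (Fin n) ℂ)
        (g : MvPolynomial (Fin n) ℂ) (w : Fin n → ℕ) (κ : Fin r ↪ Fin n) (U : Set (Fin r → ℝ)),
        HasDirections V F g w κ U) ∨
      (∃ s r : ℕ, n = s + r ∧ BaseDim V s ∧ ∃ (J κ : Fin r ↪ Fin n)
        (q : Fin r → MvPolynomial (Fin n) ℂ) (d : ℕ), OverRealGraph V J κ q d) ∨
      ∃ F, OverHypersurface V F)
    (c : Fin n ⊕ Fin n → ℂ) (hc : ∀ i, c (Sum.inr i) ≠ 0)
    (H : MvPolynomial (Fin n ⊕ Fin n) ℂ) (hH : ∃ q ∈ Translate c V, eval q H ≠ 0) :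
    ∃ z : Fin n → ℂ, ExpPoint z ∈ Translate c V ∧ eval (ExpPoint z) H ≠ 0 := by
  obtain ⟨q, ⟨u, hu, rfl⟩, hq⟩ := hH
  rcases h with ⟨s, ι, J, p, h⟩ | ⟨s, r, hn, hX, F, g, w, κ, U, h⟩ |
    ⟨s, r, hn, hX, J, κ, q, d, h⟩ | ⟨F, h⟩
  · obtain ⟨ζ₀, hζ₀⟩ : ∃ ζ₀ : Fin s → ℂ, eval ζ₀ (Matrix.of fun a b =>
        pderiv b (leading (p (J a)))).det ≠ 0 := by
      by_contra hcon
      push Not at hcon
      exact h.jacobian (MvPolynomial.funext fun x => by rw [hcon x, map_zero])
    have hdet : (Pool.Agent.K3h22.EX.jac (fun a => Pool.Agent.K3h22.EX.top (p (J a))) ζ₀).det ≠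
        0 := by
      rw [RingHom.map_det] at hζ₀
      exact hζ₀
    obtain ⟨z, ⟨u', hu', h1⟩, h2⟩ := Pool.Agent.K3h53.UG.geA P V hV.prime hV.points
      ι ι.injective p h.graph J J.injective h.indep h.free
      (fun i hi => h.others i (Finset.mem_filter.2 ⟨Finset.mem_univ i, hi⟩)) h.rows ζ₀ hdet c hc H
      ⟨u, hu, hq⟩
    exact ⟨z, ⟨u', hu', h1⟩, h2⟩
  · obtain ⟨z, ⟨u', hu', h1⟩, h2⟩ := Pool.Agent.K3h53.UG.geCrit hn P V hV.prime hV.points
      hV.nonempty hX.1 hX.2 κ κ.injective h.fibre w h.weights h.weight_one F g
      h.contains U h.isOpen h.nonempty h.directions c hc H ⟨u, hu, hq⟩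
    exact ⟨z, ⟨u', hu', h1⟩, h2⟩
  · obtain ⟨z, ⟨u', hu', h1⟩, h2⟩ := Pool.Agent.K3h53.UG.geReal hn P V hV.prime hV.points
      hV.nonempty hX.1 hX.2 κ κ.injective h.fibre J J.injective h.disjoint q h.vars
      h.contains d h.two_le h.degree h.real h.jacobian c hc H ⟨u, hu, hq⟩
    exact ⟨z, ⟨u', hu', h1⟩, h2⟩
  · rcases Nat.eq_zero_or_pos n with rfl | hn
    · have hz : ExpPoint (fun _ : Fin 0 => (0 : ℂ)) = Sum.elim
          (fun i => u (Sum.inl i) + c (Sum.inl i)) (fun i => c (Sum.inr i) * u (Sum.inr i)) := by
        funext i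
        rcases i with i | i <;> exact i.elim0
      exact ⟨fun _ => 0, ⟨u, hu, hz⟩, by rw [hz]; exact hq⟩
    · obtain ⟨s, rfl⟩ : ∃ s, n = s + 1 := ⟨n - 1, by omega⟩
      obtain ⟨z, ⟨u', hu', h1⟩, h2⟩ := Pool.Agent.K3h53.UG.geC P V hV.prime hV.points
        hV.nonempty hdim F h.ideal (fun w hw => by
          obtain ⟨ξ, η, h1, h2, h3⟩ := h.nonreal w hw
          refine ⟨ξ, η, h1, ?_, ?_⟩
          · have e1 : (fun i => ((ξ i : ℝ) : ℂ) + (((w i : ℚ) : ℝ) : ℂ) * η) =
                fun i => (ξ i : ℂ) + η * (w i : ℂ) := by
              funext i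
              rw [Complex.ofReal_ratCast, mul_comm]
            rw [e1]
            exact h2
          · have e1 : (fun i => ((ξ i : ℝ) : ℂ) + (((w i : ℚ) : ℝ) : ℂ) * η) =
                fun i => (ξ i : ℂ) + η * (w i : ℂ) := by
              funext i
              rw [Complex.ofReal_ratCast, mul_comm]
            rw [e1, dd_eq]
            exact h3) c hc H ⟨u, hu, hq⟩
      exact ⟨z, ⟨u', hu', h1⟩, h2⟩

end Pool.Agent.Results.MP_209724_lc.VarietiesOverGeneralBases
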